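import Pool.Agent.Q5.AZ.R6

/-!
# All or nothing for analytic zero divisors

For an element `α` of a complex group algebra `ℂ[G]` let `ker α` be the space of all `f ∈ ℓ²(G)` with
`α * f = 0`, and let `kerDim α` be its von Neumann dimension, a number between `0` and `1`. The analytic
zero divisor conjecture says that it is `0` for all `α ≠ 0` if `G` is torsion-free.

If the conjecture fails for one torsion-free group, then every real number `r` with `0 < r < 1` is the
dimension `kerDim α` for some `α ∈ ℤ[G]` and some torsion-free group `G` with two generators, and there is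
one torsion-free group `G` for which all these numbers occur.
-/

set_option autoImplicit false

namespace Pool.Agent.Results.MP_0f25e6_al.AllOrNothing

/-- `α * f` is nonzero for every nonzero square-summable `f`, where
`(α * f)(g) = ∑ α(k) f(k⁻¹ g)`. -/
def Regular {G : Type} [Group G] (α : G →₀ ℂ) : Prop :=
  ∀ f : G → ℂ, Memℓp f 2 → f ≠ 0 → ∃ g : G, ∑ k ∈ α.support, α k * f (k⁻¹ * g) ≠ 0

/-- All square-summable `f` with `α * f = 0`. -/
def kernel {G : Type} [Group G] (α : G →₀ ℂ) : Set (lp (fun _ : G => ℂ) 2) :=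
  {f | ∀ g : G, ∑ k ∈ α.support, α k * f (k⁻¹ * g) = 0}

open Classical in
/-- The von Neumann dimension of the kernel of left convolution by `α`: one minus the square of the
distance from the basis vector at the identity of `G` to the kernel (this is the squared length of
the projection of that vector to the kernel). -/
noncomputable def kerDim {G : Type} [Group G] (α : G →₀ ℂ) : ℝ :=
  1 - Metric.infDist (lp.single 2 (1 : G) (1 : ℂ)) (kernel α) ^ 2

/-- `G` is torsion-free. -/
def TorsionFree (G : Type) [Group G] : Prop := ∀ g : G, ∀ n : ℕ, 0 < n → g ^ n = 1 → g = 1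

/-- `G` is generated by two elements. -/
def TwoGenerated (G : Type) [Group G] : Prop := ∃ a b : G, Subgroup.closure {a, b} = ⊤

/-- `C` is a class of torsion-free groups which is closed under subgroups and isomorphisms
(injective homomorphisms into a member), direct products of arbitrary families, semidirect products
with `ℤ`, and free products with free groups of finite rank. -/
structure ClosedClass (C : (G : Type) → [Group G] → Prop) : Prop where
  torsionFree : ∀ (G : Type) [Group G], C G → TorsionFree G
  subgroup : ∀ (G H : Type) [Group G] [Group H] (f : G →* H), Function.Injective f → C H → C G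
  product : ∀ (I : Type) (G : I → Type) [∀ i, Group (G i)], (∀ i, C (G i)) → C (∀ i, G i)
  semidirect : ∀ (G : Type) [Group G] (s : MulAut G), C G →
    C (G ⋊[zpowersHom (MulAut G) s] Multiplicative ℤ)
  freeProduct : ∀ (G : Type) [Group G] (m : ℕ), C G → C (Monoid.Coprod G (FreeGroup (Fin m)))

/-- `C` is a class of groups which is closed under direct products of two groups, finite powers and
free products with free groups of finite rank. -/
structure ProductClass (C : (G : Type) → [Group G] → Prop) : Prop where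
  product : ∀ (G H : Type) [Group G] [Group H], C G → C H → C (G × H)
  power : ∀ (G : Type) [Group G] (n : ℕ), C G → C (Fin n → G)
  freeProduct : ∀ (G : Type) [Group G] (m : ℕ), C G → C (Monoid.Coprod G (FreeGroup (Fin m)))

open Pool.Agent Pool.Agent.TH25.AD Pool.Agent.Q5.AZ

theorem cls {C : (G : Type) → [Group G] → Prop} (h : ClosedClass C) : Cls C :=
  ⟨h.torsionFree, h.subgroup, h.product, h.semidirect, h.freeProduct⟩

theorem tf_of_isLcm {G : Type} [Group G] (h : W656.VA.IsLcm G 1) : TorsionFree G := by
  intro g n hn hg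
  have h1 : IsOfFinOrder g := isOfFinOrder_iff_pow_eq_one.2 ⟨n, hn, hg⟩
  have h2 : Finite (Subgroup.zpowers g) := (finite_zpowers.2 h1).to_subtype
  have h3 := h.2.1 (Subgroup.zpowers g) h2
  rw [Nat.card_zpowers, Nat.dvd_one, orderOf_eq_one_iff] at h3
  exact h3

/-- The torsion-free groups form such a class. -/
theorem closedClass_torsionFree : ClosedClass (fun (G : Type) [Group G] => TorsionFree G) := by
  refine ⟨fun G _ h => h, ?_, ?_, ?_, ?_⟩
  · intro G H _ _ f hf hH g n hn hg
    apply hf
    rw [map_one]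
    refine hH _ n hn ?_
    rw [← map_pow, hg, map_one]
  · intro I G _ h g n hn hg
    funext i
    exact h i _ n hn (congrFun hg i)
  · intro G _ s hG g n hn hg
    have h1 : g.right = 1 := by
      refine tf_int _ n hn ?_
      have := congrArg SemidirectProduct.rightHom hg
      rw [map_pow, map_one] at this
      exact this
    have h2 : g = SemidirectProduct.inl g.left := by
      apply SemidirectProduct.ext
      · rfl
      · rw [h1]
        rfl
    rw [h2, ← map_pow] at hg
    have h3 : g.left ^ n = 1 := by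
      apply SemidirectProduct.inl_injective (φ := zpowersHom (MulAut G) s)
      rw [hg, map_one]
    rw [h2, hG _ n hn h3, map_one]
  · intro G _ m hG
    show TorsionFree (Monoid.Coprod G (FreeGroup (Fin m)))
    exact tf_of_isLcm (W656.VA.IsLcm.coprod (G := G) (W656.VA.isLcm_one hG) m)

theorem kerDim_eq {G : Type} [Group G] (α : G →₀ ℂ) : kerDim α = TH57.AZ.kd α := rfl

theorem exists_of_not_regular {G : Type} [Group G] {α : G →₀ ℂ} (h : ¬ Regular α) :
    0 < TH57.AZ.kd α := by
  unfold Regular at h
  push Not at h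
  obtain ⟨f, hf, h0, h1⟩ := h
  refine TH57.AZ.kd_pos α (f := ⟨f, hf⟩) h1 ?_
  intro h2
  apply h0
  exact congrArg (fun x : lp (fun _ : G => ℂ) 2 => (x : G → ℂ)) h2

theorem kd_of_regular {G : Type} [Group G] {α : G →₀ ℂ} (h : Regular α) : TH57.AZ.kd α = 0 := by
  by_contra hne
  obtain ⟨u, hu, _, hu2⟩ := TH57.AZ.exists_proj α
  have h0 : u ≠ 0 := by
    intro h0
    apply hne
    rw [← hu2, h0]
    simp
  obtain ⟨g, hg⟩ := h u (lp.memℓp u) (by
    intro h1
    exact h0 (lp.ext h1))
  exact hg (hu g)

theorem kerDim_zero {G : Type} [Group G] : kerDim (0 : G →₀ ℂ) = 1 := by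
  classical
  have h : (lp.single 2 (1 : G) (1 : ℂ) : lp (fun _ : G => ℂ) 2) ∈ kernel (0 : G →₀ ℂ) := by
    intro g
    simp
  unfold kerDim
  rw [Metric.infDist_zero_of_mem h]
  norm_num

/-- if the conjecture holds, there are no kernel dimensions between `0` and `1` -/
theorem kerDim_ne {G : Type} [Group G] (h : ∀ α : G →₀ ℂ, α ≠ 0 → Regular α) (α : G →₀ ℂ) :
    ¬ (0 < kerDim α ∧ kerDim α < 1) := by
  rintro ⟨h1, h2⟩
  by_cases h0 : α = 0
  · rw [h0, kerDim_zero] at h2
    exact lt_irrefl _ h2
  · rw [kerDim_eq, kd_of_regular (h α h0)] at h1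
    exact lt_irrefl _ h1

theorem exists_ev {C : (G : Type) → [Group G] → Prop}
    (hpow : ∀ (G : Type) [Group G] (n : ℕ), C G → C (Fin n → G))
    (hno : ¬ ∀ (G : Type) [Group G], C G → ∀ α : G →₀ ℂ, α ≠ 0 → Regular α) :
    ∃ v : ℝ, 0 < v ∧ v < 1 ∧ EE C (⊥ : Subring ℂ) v := by
  push Not at hno
  obtain ⟨G, _, hG, α, hα, hr⟩ := hno
  obtain ⟨n, v, h0, h1, hv⟩ := exists_integral α hα (exists_of_not_regular hr)
  exact ⟨v, h0, h1, _, inferInstance, hpow G n hG, hv⟩

theorem conj_bot : ∀ c ∈ (⊥ : Subring ℂ), (starRingEnd ℂ) c ∈ (⊥ : Subring ℂ) := by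
  intro c hc
  obtain ⟨k, rfl⟩ := Subring.mem_bot.1 hc
  rw [map_intCast]
  exact Subring.mem_bot.2 ⟨k, rfl⟩

/-- a kernel dimension in the format of the problem -/
theorem exists_kerDim {G : Type} [Group G] {R : Subring ℂ} {v : ℝ}
    (h : EVal (⊥ : Subring ℂ) G v) : ∃ α : G →₀ ℂ, (∀ g, α g ∈ R) ∧ kerDim α = v := by
  obtain ⟨α, hα, hv⟩ := eval_mono (bot_le : (⊥ : Subring ℂ) ≤ R) h
  exact ⟨α, hα, by rw [kerDim_eq, kd_eq, hv]⟩

/-- **All or nothing for analytic zero divisors.**

1. The torsion-free groups form a closed class.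
2. Let `C` be a closed class of torsion-free groups and let `R` be any subring of `ℂ`, for example `ℤ`.
   The following are equivalent: (a) the analytic zero divisor conjecture holds for all groups of `C`;
   (b) some real number `0 < r < 1` is not the dimension of the kernel of any element of `R[G]`, for
   any group `G` in `C` with two generators; (c) for every group `G` in `C`, some real number
   `0 < r < 1` is not the dimension of the kernel of any element of `R[G]`.
3. Let `C` be a class of groups which is closed under finite direct products and free products with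
   free groups of finite rank, and let `R` be any subring of `ℂ`. If the kernel dimensions of the
   elements of `R[G]`, `G` in `C`, omit some interval `(a, b)` with `0 ≤ a < b ≤ 1`, then the analytic
   zero divisor conjecture holds for all groups of `C` (and conversely). -/
theorem result :
    ClosedClass (fun (G : Type) [Group G] => TorsionFree G) ∧
    (∀ C : (G : Type) → [Group G] → Prop, ClosedClass C → ∀ R : Subring ℂ, List.TFAE [
      ∀ (G : Type) [Group G], C G → ∀ α : G →₀ ℂ, α ≠ 0 → Regular α,
      ∃ r : ℝ, 0 < r ∧ r < 1 ∧ ∀ (G : Type) [Group G], C G → TwoGenerated G →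
        ∀ α : G →₀ ℂ, (∀ g, α g ∈ R) → kerDim α ≠ r,
      ∀ (G : Type) [Group G], C G → ∃ r : ℝ, 0 < r ∧ r < 1 ∧
        ∀ α : G →₀ ℂ, (∀ g, α g ∈ R) → kerDim α ≠ r]) ∧
    (∀ C : (G : Type) → [Group G] → Prop, ProductClass C → ∀ R : Subring ℂ,
      ((∀ (G : Type) [Group G], C G → ∀ α : G →₀ ℂ, α ≠ 0 → Regular α) ↔
        ∃ a b : ℝ, 0 ≤ a ∧ a < b ∧ b ≤ 1 ∧ ∀ (G : Type) [Group G], C G →
          ∀ α : G →₀ ℂ, (∀ g, α g ∈ R) → ¬ (a < kerDim α ∧ kerDim α < b))) := by
  refine ⟨closedClass_torsionFree, ?_, ?_⟩
  · intro C hC R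
    have hall : (¬ ∀ (G : Type) [Group G], C G → ∀ α : G →₀ ℂ, α ≠ 0 → Regular α) →
        ∀ r : ℝ, 0 < r → r < 1 → EE C (⊥ : Subring ℂ) r := by
      intro hno r h0 h1
      obtain ⟨v, hv0, hv1, hv⟩ := exists_ev
        (fun G _ n hG => hC.product (Fin n) (fun _ => G) (fun _ => hG)) hno
      exact hv.all (cls hC) conj_bot hv0 hv1 r h0 h1
    have hhalf : ∀ (G : Type) [Group G], (∀ α : G →₀ ℂ, α ≠ 0 → Regular α) →
        ∀ α : G →₀ ℂ, kerDim α ≠ 1 / 2 := by
      intro G _ h α hα
      apply kerDim_ne h α
      rw [hα]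
      norm_num
    tfae_have 1 → 2 := fun h =>
      ⟨1 / 2, by norm_num, by norm_num, fun G _ hG _ α _ => hhalf G (h G hG) α⟩
    tfae_have 1 → 3 := fun h G _ hG =>
      ⟨1 / 2, by norm_num, by norm_num, fun α _ => hhalf G (h G hG) α⟩
    tfae_have 2 → 1 := by
      rintro ⟨r, h0, h1, h⟩
      by_contra hno
      obtain ⟨H, _, hH, hv⟩ := hall hno r h0 h1
      obtain ⟨K, hK, hv⟩ := eval_fg hv
      have hCK : C K := hC.subgroup K H K.subtype K.subtype_injective hH
      obtain ⟨L, f, hL, hf⟩ := two_gen_of_fg hK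
      have hCL : C L := hC.subgroup L _ L.subtype L.subtype_injective
        ((cls hC).wr ((cls hC).wr hCK))
      obtain ⟨α, hα, hr⟩ := exists_kerDim (R := R) (eval_incl f hf hv)
      exact h L hCL hL α hα hr
    tfae_have 3 → 1 := by
      intro h
      by_contra hno
      have h1 : ∀ r : {r : ℝ // 0 < r ∧ r < 1}, ∃ (H : Type) (_ : Group H), C H ∧
          EVal (⊥ : Subring ℂ) H (r : ℝ) := fun r => hall hno r r.2.1 r.2.2
      choose H iH hH hv using h1
      obtain ⟨r, hr0, hr1, h2⟩ := h (∀ r, H r) (hC.product _ H hH)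
      classical
      have h3 : EVal (⊥ : Subring ℂ) (∀ r, H r) r :=
        eval_incl (MonoidHom.mulSingle H (⟨r, hr0, hr1⟩ : {r : ℝ // 0 < r ∧ r < 1})) (by
          intro a b hab
          have := congrFun hab ⟨r, hr0, hr1⟩
          simpa using this) (hv ⟨r, hr0, hr1⟩)
      obtain ⟨α, hα, hr⟩ := exists_kerDim (R := R) h3
      exact h2 α hα hr
    tfae_finish
  · intro C hC R
    constructor
    · intro h
      exact ⟨0, 1, le_rfl, one_pos, le_rfl, fun G _ hG α _ => kerDim_ne (h G hG) α⟩
    · rintro ⟨a, b, ha, hab, hb, h⟩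
      by_contra hno
      obtain ⟨v, hv0, hv1, hv⟩ := exists_ev hC.power hno
      obtain ⟨r, hr1, hr2, H, _, hH, hr⟩ := hv.dense hC.product hC.freeProduct conj_bot hv0 hv1 a b
        ha hab hb
      obtain ⟨α, hα, hαr⟩ := exists_kerDim (R := R) hr
      apply h H hH α hα
      rw [hαr]
      exact ⟨hr1, hr2⟩

end Pool.Agent.Results.MP_0f25e6_al.AllOrNothing
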