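import Pool.Agent.Q23.JS.K2

set_option autoImplicit false

/-!
# Kernel dimensions along pencils of elements

For an element `α` of a complex group algebra `ℂ[G]` let `kerDim α` be the von Neumann dimension of the
space of all `f ∈ ℓ²(G)` with `α * f = 0`. If the analytic zero divisor conjecture holds, then it is
`0` or `1`, so it takes at most two values on the elements with support in a fixed finite set, and
on a pencil `α + z β` it jumps at most once. If the conjecture fails for one torsion-free group, then
every set `S` of natural numbers is the jumping set of a pencil `α + z β`, with `α` and `β` in `ℤ[G]`,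
for some torsion-free group `G` with two generators.
-/

namespace Pool.Agent.Results.MP_0f25e6_al.ElementPencils

/-- `α * f` is nonzero for every nonzero square-summable `f`, where
`(α * f)(g) = ∑ α(k) f(k⁻¹ g)`. -/
def Regular {G : Type} [Group G] (α : G →₀ ℂ) : Prop :=
  ∀ f : G → ℂ, Memℓp f 2 → f ≠ 0 → ∃ g : G, ∑ k ∈ α.support, α k * f (k⁻¹ * g) ≠ 0

/-- All square-summable `f` with `α * f = 0`. -/
def kernel {G : Type} [Group G] (α : G →₀ ℂ) : Set (lp (fun _ : G => ℂ) 2) :=
  {f | ∀ g : G, ∑ k ∈ α.support, α k * f (k⁻¹ * g) = 0}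

open Classical in
/-- The von Neumann dimension of the kernel of left convolution by `α`: one minus the square of the
distance from the basis vector at the identity of `G` to the kernel (this is the squared length of
the projection of that vector to the kernel). -/
noncomputable def kerDim {G : Type} [Group G] (α : G →₀ ℂ) : ℝ :=
  1 - Metric.infDist (lp.single 2 (1 : G) (1 : ℂ)) (kernel α) ^ 2

/-- The jumping set of the pencil `α + z β`: all complex numbers `z` for which the kernel dimension
of `α + z β` is larger than that of another member of the pencil. -/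
def jumps {G : Type} [Group G] (α β : G →₀ ℂ) : Set ℂ :=
  {z | ∃ w : ℂ, kerDim (α + w • β) < kerDim (α + z • β)}

/-- `G` is torsion-free. -/
def TorsionFree (G : Type) [Group G] : Prop := ∀ g : G, ∀ n : ℕ, 0 < n → g ^ n = 1 → g = 1

/-- `G` is generated by two elements. -/
def TwoGenerated (G : Type) [Group G] : Prop := ∃ a b : G, Subgroup.closure {a, b} = ⊤

/-- `C` is a class of groups which is closed under subgroups and isomorphisms (injective
homomorphisms into a member), direct products of arbitrary families, semidirect products with `ℤ`,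
and free products with free groups of finite rank. -/
structure ClosedClass (C : (G : Type) → [Group G] → Prop) : Prop where
  subgroup : ∀ (G H : Type) [Group G] [Group H] (f : G →* H), Function.Injective f → C H → C G
  product : ∀ (I : Type) (G : I → Type) [∀ i, Group (G i)], (∀ i, C (G i)) → C (∀ i, G i)
  semidirect : ∀ (G : Type) [Group G] (s : MulAut G), C G →
    C (G ⋊[zpowersHom (MulAut G) s] Multiplicative ℤ)
  freeProduct : ∀ (G : Type) [Group G] (m : ℕ), C G → C (Monoid.Coprod G (FreeGroup (Fin m)))

open Pool.Agent Pool.Agent.TH25.AD Pool.Agent.Q5.AZ Q23.JS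

theorem cl {C : (G : Type) → [Group G] → Prop} (h : ClosedClass C) : Q23.FV.Cl C :=
  ⟨h.subgroup, h.product, h.semidirect, h.freeProduct⟩

theorem tf_of_isLcm {G : Type} [Group G] (h : W656.VA.IsLcm G 1) : TorsionFree G := by
  intro g n hn hg
  have h1 : IsOfFinOrder g := isOfFinOrder_iff_pow_eq_one.2 ⟨n, hn, hg⟩
  have h2 : Finite (Subgroup.zpowers g) := (finite_zpowers.2 h1).to_subtype
  have h3 := h.2.1 (Subgroup.zpowers g) h2
  rw [Nat.card_zpowers, Nat.dvd_one, orderOf_eq_one_iff] at h3
  exact h3

/-- The torsion-free groups form such a class. -/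
theorem closedClass_torsionFree : ClosedClass (fun (G : Type) [Group G] => TorsionFree G) := by
  refine ⟨?_, ?_, ?_, ?_⟩
  · intro G H _ _ f hf hH g n hn hg
    apply hf
    rw [map_one]
    refine hH _ n hn ?_
    rw [← map_pow, hg, map_one]
  · intro I G _ h g n hn hg
    funext i
    exact h i _ n hn (congrFun hg i)
  · intro G _ s hG g n hn hg
    have h1 : g.right = 1 := by
      refine tf_int _ n hn ?_
      have := congrArg SemidirectProduct.rightHom hg
      rw [map_pow, map_one] at this
      exact this
    have h2 : g = SemidirectProduct.inl g.left := by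
      apply SemidirectProduct.ext
      · rfl
      · rw [h1]
        rfl
    rw [h2, ← map_pow] at hg
    have h3 : g.left ^ n = 1 := by
      apply SemidirectProduct.inl_injective (φ := zpowersHom (MulAut G) s)
      rw [hg, map_one]
    rw [h2, hG _ n hn h3, map_one]
  · intro G _ m hG
    show TorsionFree (Monoid.Coprod G (FreeGroup (Fin m)))
    exact tf_of_isLcm (W656.VA.IsLcm.coprod (G := G) (W656.VA.isLcm_one hG) m)

theorem kerDim_eq {G : Type} [Group G] (α : G →₀ ℂ) : kerDim α = TH57.AZ.kd α := rfl

theorem exists_of_not_regular {G : Type} [Group G] {α : G →₀ ℂ} (h : ¬ Regular α) :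
    0 < TH57.AZ.kd α := by
  unfold Regular at h
  push Not at h
  obtain ⟨f, hf, h0, h1⟩ := h
  refine TH57.AZ.kd_pos α (f := ⟨f, hf⟩) h1 ?_
  intro h2
  apply h0
  exact congrArg (fun x : lp (fun _ : G => ℂ) 2 => (x : G → ℂ)) h2

theorem kd_of_regular {G : Type} [Group G] {α : G →₀ ℂ} (h : Regular α) : TH57.AZ.kd α = 0 := by
  by_contra hne
  obtain ⟨u, hu, _, hu2⟩ := TH57.AZ.exists_proj α
  have h0 : u ≠ 0 := by
    intro h0
    apply hne
    rw [← hu2, h0]
    simp
  obtain ⟨g, hg⟩ := h u (lp.memℓp u) (by
    intro h1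
    exact h0 (lp.ext h1))
  exact hg (hu g)

theorem kerDim_zero {G : Type} [Group G] : kerDim (0 : G →₀ ℂ) = 1 := by
  classical
  have h : (lp.single 2 (1 : G) (1 : ℂ) : lp (fun _ : G => ℂ) 2) ∈ kernel (0 : G →₀ ℂ) := by
    intro g
    simp
  unfold kerDim
  rw [Metric.infDist_zero_of_mem h]
  norm_num

/-- if the conjecture holds, the kernel dimensions are `0` and `1` -/
theorem kerDim_values {G : Type} [Group G] (h : ∀ α : G →₀ ℂ, α ≠ 0 → Regular α) (α : G →₀ ℂ) :
    (α = 0 ∧ kerDim α = 1) ∨ (α ≠ 0 ∧ kerDim α = 0) := by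
  by_cases h0 : α = 0
  · left
    exact ⟨h0, by rw [h0]; exact kerDim_zero⟩
  · right
    exact ⟨h0, by rw [kerDim_eq]; exact kd_of_regular (h α h0)⟩

theorem exists_ev {C : (G : Type) → [Group G] → Prop} (hC : ClosedClass C)
    (hno : ¬ ∀ (G : Type) [Group G], C G → ∀ α : G →₀ ℂ, α ≠ 0 → Regular α) :
    ∃ v : ℝ, 0 < v ∧ v < 1 ∧ EE C (⊥ : Subring ℂ) v := by
  push Not at hno
  obtain ⟨G, _, hG, α, hα, hr⟩ := hno
  obtain ⟨n, v, h0, h1, hv⟩ := exists_integral α hα (exists_of_not_regular hr)
  exact ⟨v, h0, h1, _, inferInstance, hC.product (Fin n) (fun _ => G) (fun _ => hG), hv⟩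

/-- if the conjecture fails, every set of natural numbers is a set of jumps -/
theorem main {C : (G : Type) → [Group G] → Prop} (hC : ClosedClass C)
    (hno : ¬ ∀ (G : Type) [Group G], C G → ∀ α : G →₀ ℂ, α ≠ 0 → Regular α) (S : Set ℕ) :
    ∃ (H : Type) (_ : Group H), C H ∧ ∃ β α : ℝ, 0 < β ∧ 0 < α ∧ α < 1 ∧
      EPen (⊥ : Subring ℂ) H S β α := by
  obtain ⟨v, h0, h1, hv⟩ := exists_ev hC hno
  exact main_E (cl hC) hv h0 h1 S

theorem infinite_nat : ((fun k : ℕ => (k : ℂ)) '' Set.univ).Infinite := by
  rw [Set.image_univ]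
  exact Set.infinite_range_of_injective Nat.cast_injective

/-- **Kernel dimensions along pencils of elements.** Let `C` be a class of groups which is closed
under subgroups, direct products, semidirect products with `ℤ` and free products with free groups of
finite rank, for example the class of all torsion-free groups, and let `R` be any subring of `ℂ`, for
example `ℤ`. The following are equivalent.

1. The analytic zero divisor conjecture holds for all groups of `C`.
2. For every group `G` in `C` and every finite subset `T` of `G`, the elements of `ℂ[G]` with support in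
   `T` have only finitely many kernel dimensions.
3. For every group `G` in `C` and all `α`, `β` in `ℂ[G]` the jumping set of `α + z β` has at most one
   element.
4. For every group `G` in `C` and all `α`, `β` in `R[G]` the jumping set of `α + z β` is finite.
5. There is a set `S` of natural numbers which is not the jumping set of `α + z β` for any group `G` in
   `C` with two generators and any `α`, `β` in `R[G]`.
6. For every group `G` in `C` there is a set `S` of natural numbers which is not the jumping set of
   `α + z β` for any `α`, `β` in `R[G]`. -/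
theorem result :
    ClosedClass (fun (G : Type) [Group G] => TorsionFree G) ∧
    ∀ C : (G : Type) → [Group G] → Prop, ClosedClass C → ∀ R : Subring ℂ, List.TFAE [
      ∀ (G : Type) [Group G], C G → ∀ α : G →₀ ℂ, α ≠ 0 → Regular α,
      ∀ (G : Type) [Group G], C G → ∀ T : Finset G,
        {r : ℝ | ∃ α : G →₀ ℂ, α.support ⊆ T ∧ kerDim α = r}.Finite,
      ∀ (G : Type) [Group G], C G → ∀ α β : G →₀ ℂ, (jumps α β).encard ≤ 1,
      ∀ (G : Type) [Group G], C G → ∀ α β : G →₀ ℂ, (∀ g, α g ∈ R) → (∀ g, β g ∈ R) →
        (jumps α β).Finite,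
      ∃ S : Set ℕ, ∀ (G : Type) [Group G], C G → TwoGenerated G → ∀ α β : G →₀ ℂ,
        (∀ g, α g ∈ R) → (∀ g, β g ∈ R) → jumps α β ≠ (fun k : ℕ => (k : ℂ)) '' S,
      ∀ (G : Type) [Group G], C G → ∃ S : Set ℕ, ∀ α β : G →₀ ℂ,
        (∀ g, α g ∈ R) → (∀ g, β g ∈ R) → jumps α β ≠ (fun k : ℕ => (k : ℂ)) '' S] := by
  classical
  refine ⟨closedClass_torsionFree, fun C hC R => ?_⟩
  tfae_have 1 → 2 := by
    intro h G _ hG T
    refine Set.Finite.subset (Set.toFinite ({0, 1} : Set ℝ)) ?_
    rintro r ⟨α, _, rfl⟩
    rcases kerDim_values (h G hG) α with ⟨_, h1⟩ | ⟨_, h1⟩ <;> rw [h1] <;> simp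
  tfae_have 2 → 1 := by
    intro h
    by_contra hno
    obtain ⟨H, _, hH, β, α, hβ, hα, hα1, hk⟩ := main hC hno Set.univ
    obtain ⟨T, hT⟩ := hk.values hβ hα hα1
    exact hT (h H hH T)
  tfae_have 1 → 3 := by
    intro h G _ hG α β
    rw [Set.encard_le_one_iff]
    have key : ∀ z : ℂ, z ∈ jumps α β → α + z • β = 0 := by
      rintro z ⟨w, hw⟩
      rcases kerDim_values (h G hG) (α + z • β) with ⟨h1, _⟩ | ⟨_, h1⟩
      · exact h1
      · rw [h1] at hw
        rcases kerDim_values (h G hG) (α + w • β) with ⟨_, h2⟩ | ⟨_, h2⟩ <;> rw [h2] at hw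
        · exact absurd hw (by norm_num)
        · exact absurd hw (lt_irrefl _)
    intro a b ha hb
    by_contra hab
    have h1 := key a ha
    have h2 := key b hb
    have h3 : (a - b) • β = 0 := by
      rw [sub_smul, sub_eq_zero]
      exact add_left_cancel (h1.trans h2.symm)
    have h4 : β = 0 := (smul_eq_zero.1 h3).resolve_left (sub_ne_zero.2 hab)
    obtain ⟨w, hw⟩ := ha
    rw [h4, smul_zero, smul_zero] at hw
    exact lt_irrefl _ hw
  tfae_have 3 → 4 := by
    intro h G _ hG α β _ _
    exact Set.finite_of_encard_le_coe (k := 1) (by exact_mod_cast h G hG α β)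
  tfae_have 4 → 5 := by
    intro h
    refine ⟨Set.univ, fun G _ hG _ α β hα hβ hAB => ?_⟩
    have h1 := h G hG α β hα hβ
    rw [hAB] at h1
    exact infinite_nat h1
  tfae_have 4 → 6 := by
    intro h G _ hG
    refine ⟨Set.univ, fun α β hα hβ hAB => ?_⟩
    have h1 := h G hG α β hα hβ
    rw [hAB] at h1
    exact infinite_nat h1
  tfae_have 5 → 1 := by
    rintro ⟨S, h⟩
    by_contra hno
    obtain ⟨H, _, hH, β, α, hβ, hα, _, hk⟩ := main hC hno S
    obtain ⟨K, hK, hk⟩ := hk.fg
    have hCK : C K := hC.subgroup K H K.subtype K.subtype_injective hH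
    obtain ⟨L, f, hL, hf⟩ := two_gen_of_fg hK
    have hCL : C L := hC.subgroup L _ L.subtype L.subtype_injective
      ((cl hC).wr ((cl hC).wr hCK))
    obtain ⟨a, b, ha, hb, hab⟩ := ((hk.push f hf).mono (bot_le : (⊥ : Subring ℂ) ≤ R)).jumps hβ hα
    exact h L hCL hL a b ha hb hab
  tfae_have 6 → 1 := by
    intro h
    by_contra hno
    have h1 : ∀ S : Set ℕ, ∃ (H : Type) (_ : Group H), C H ∧ ∃ β α : ℝ, 0 < β ∧ 0 < α ∧
        EPen (⊥ : Subring ℂ) H S β α := by
      intro S
      obtain ⟨H, _, hH, β, α, hβ, hα, _, hk⟩ := main hC hno S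
      exact ⟨H, inferInstance, hH, β, α, hβ, hα, hk⟩
    choose H iH hH β α hβ hα hk using h1
    obtain ⟨S, hS⟩ := h (∀ S, H S) (hC.product _ H hH)
    have h3 : EPen (⊥ : Subring ℂ) (∀ S, H S) S (β S) (α S) :=
      (hk S).push (MonoidHom.mulSingle H S) (by
        intro a b hab
        have := congrFun hab S
        simpa using this)
    obtain ⟨a, b, ha, hb, hab⟩ := (h3.mono (bot_le : (⊥ : Subring ℂ) ≤ R)).jumps (hβ S) (hα S)
    exact hS a b ha hb hab
  tfae_finish

end Pool.Agent.Results.MP_0f25e6_al.ElementPencils
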