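import Pool.Agent.Q175.LG.Az4

/-!
# Kernel vectors of complex matrices near the norm `3 / √2`

`G` is a group. Complex matrices over the group algebra act by convolution on columns of
functions on `G`. Let `P` be a translation invariant space of functions on `G` which tend to zero, for
example `ℓᵖ(G)`, `0 < p < ∞`, or `c₀(G)`. Every matrix can be replaced, for each `L`, by one with kernel
vectors in the same spaces `P` whose size is at most linear in `L` and which is supported in an integral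
matrix of norm at most `3 / √2 + 2⁻ᴸ`. So the analytic zero divisor problem for matrices is a problem on
such matrices.
-/

set_option autoImplicit false

namespace Pool.Agent.Results.MP_0f25e6_al.KernelDilation

open TH57.Thr
open Pool.Agent.Q175.LG.Az (Space)

/-- The matrix `A` over the complex group algebra has a nonzero kernel vector in the space `P` of
functions on `G`: functions `f j`, not all zero, with `∑ j, A i j * f j = 0` for all `i`, where
`(α * f)(g) = ∑ α(k) f(k⁻¹ g)`. -/
def HasKernel {G : Type} [Group G] {m n : ℕ} (P : (G → ℂ) → Prop)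
    (A : Matrix (Fin m) (Fin n) (MonoidAlgebra ℂ G)) : Prop :=
  ∃ f : Fin n → G → ℂ, (∀ j, P (f j)) ∧ f ≠ 0 ∧
    ∀ (i : Fin m) (g : G), ∑ j, ∑ k ∈ (A i j).coeff.support, (A i j).coeff k * f j (k⁻¹ * g) = 0

/-- `f` has finite support. -/
def FinSupp {G : Type} (f : G → ℂ) : Prop := {g | f g ≠ 0}.Finite

/-- The complex matrix `A` is supported in the support of the integral matrix `N`. -/
def SuppIn {G : Type} [Group G] {m n : ℕ} (A : Matrix (Fin m) (Fin n) (MonoidAlgebra ℂ G))
    (N : Matrix (Fin m) (Fin n) (MonoidAlgebra ℤ G)) : Prop :=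
  ∀ i j g, (A i j).coeff g ≠ 0 → (N i j).coeff g ≠ 0

/-- `A` has at most `C L` rows and columns and is supported in an integral matrix of norm at most
`3 / √2 + 2⁻ᴸ`. -/
def Near {G : Type} [Group G] (C L : ℕ) {m n : ℕ}
    (A : Matrix (Fin m) (Fin n) (MonoidAlgebra ℂ G)) : Prop :=
  m ≤ C * L ∧ n ≤ C * L ∧ ∃ N : Matrix (Fin m) (Fin n) (MonoidAlgebra ℤ G),
    SuppIn A N ∧ NormLE N (3 / Real.sqrt 2 + (1 / 2) ^ L)

theorem ker_iff {G : Type} [Group G] {m n : ℕ} (P : (G → ℂ) → Prop)
    (A : Matrix (Fin m) (Fin n) (MonoidAlgebra ℂ G)) :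
    HasKernel P A ↔ Pool.Agent.Q175.LG.Az.Ker P A := by
  have key : ∀ f : Fin n → G → ℂ, ((∀ (i : Fin m) (g : G),
      ∑ j, ∑ k ∈ (A i j).coeff.support, (A i j).coeff k * f j (k⁻¹ * g) = 0) ↔
      Pool.Agent.Q175.LG.Az.mact A f = 0) := by
    intro f
    have h1 : ∀ i g, Pool.Agent.Q175.LG.Az.mact A f i g
        = ∑ j, ∑ k ∈ (A i j).coeff.support, (A i j).coeff k * f j (k⁻¹ * g) := by
      intro i g
      unfold Pool.Agent.Q175.LG.Az.mact
      rw [Finset.sum_apply]
      exact Finset.sum_congr rfl fun j _ => Pool.Agent.Q175.LG.Az.act_apply _ _ _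
    constructor
    · intro h
      funext i g
      rw [h1]
      exact h i g
    · intro h i g
      rw [← h1, h]
      rfl
  constructor
  · rintro ⟨f, h1, h2, h3⟩
    exact ⟨f, h1, h2, (key f).1 h3⟩
  · rintro ⟨f, h1, h2, h3⟩
    exact ⟨f, h1, h2, (key f).2 h3⟩

theorem near_of {G : Type} [Group G] {m n : ℕ} (A : Matrix (Fin m) (Fin n) (MonoidAlgebra ℂ G)) :
    ∃ C : ℕ, ∀ L : ℕ, 1 ≤ L → ∃ (m' n' : ℕ) (B : Matrix (Fin m') (Fin n') (MonoidAlgebra ℂ G)),
      Near C L B ∧ ∀ P : (G → ℂ) → Prop, Space P → (HasKernel P A ↔ HasKernel P B) := by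
  obtain ⟨C, hC⟩ := Pool.Agent.Q175.LG.Az.ker_dil A
  refine ⟨m + n + C, fun L hL => ?_⟩
  obtain ⟨k, B, N, h1, h2, h3, h4⟩ := hC L hL
  have h5 : m ≤ m * L := Nat.le_mul_of_pos_right _ hL
  have h6 : n ≤ n * L := Nat.le_mul_of_pos_right _ hL
  refine ⟨m + k, n + k, B, ⟨?_, ?_, N, h3, h4⟩, fun P hP => ?_⟩
  · nlinarith [Nat.zero_le (n * L)]
  · nlinarith [Nat.zero_le (m * L)]
  · rw [ker_iff, ker_iff, h2 P hP]

/-- Let `G` be a group. `Space P` means that `P` is a translation invariant linear space of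
functions on `G` which contains the finitely supported functions and consists of functions which tend
to zero.

(1) For every complex matrix `A` there is `C` such that for every `L ≥ 1` some matrix `B` with
`Near C L B` has for all spaces `P` a kernel vector in `P` if and only if `A` has one.
(2) All complex matrices over `ℂ[G]` with a kernel vector in `P` have a finitely supported kernel vector if
and only if for every `C` there is `L ≥ 1` such that this is true for the matrices with
`Near C L A`.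
(3) The spaces `ℓᵖ(G)`, `0 < p < ∞`, and `c₀(G)` are spaces `P`. -/
theorem result (G : Type) [Group G] :
    (∀ (m n : ℕ) (A : Matrix (Fin m) (Fin n) (MonoidAlgebra ℂ G)),
      ∃ C : ℕ, ∀ L : ℕ, 1 ≤ L → ∃ (m' n' : ℕ) (B : Matrix (Fin m') (Fin n') (MonoidAlgebra ℂ G)),
        Near C L B ∧ ∀ P : (G → ℂ) → Prop, Space P → (HasKernel P A ↔ HasKernel P B)) ∧
    (∀ (P : (G → ℂ) → Prop), Space P →
      ((∀ (m n : ℕ) (A : Matrix (Fin m) (Fin n) (MonoidAlgebra ℂ G)),
        HasKernel P A → HasKernel FinSupp A) ↔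
      ∀ C : ℕ, ∃ L : ℕ, 1 ≤ L ∧ ∀ (m n : ℕ) (A : Matrix (Fin m) (Fin n) (MonoidAlgebra ℂ G)),
        Near C L A → HasKernel P A → HasKernel FinSupp A)) ∧
    (∀ p : ENNReal, 0 < p → p < ⊤ → Space (fun f : G → ℂ => Memℓp f p)) ∧
    Space (fun f : G → ℂ => Filter.Tendsto f Filter.cofinite (nhds 0)) := by
  refine ⟨fun m n A => near_of A, fun P hP => ⟨fun h C => ?_, fun h => ?_⟩,
    Pool.Agent.Q175.LG.Az.space_lp, Pool.Agent.Q175.LG.Az.space_c0⟩
  · exact ⟨1, le_rfl, fun m n A _ => h m n A⟩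
  · intro m n A hA
    obtain ⟨C, hC⟩ := near_of A
    obtain ⟨L, hL, hL2⟩ := h C
    obtain ⟨m', n', B, hB, hB2⟩ := hC L hL
    exact (hB2 _ Pool.Agent.Q175.LG.Az.space_fin).2 (hL2 m' n' B hB ((hB2 P hP).1 hA))

end Pool.Agent.Results.MP_0f25e6_al.KernelDilation
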